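import Pool.Agent.Lib.KP.Kit

/-! Maximum principle on a smooth hypersurface. -/

open scoped Classical Topology ContDiff ComplexOrder Matrix ENNReal
open Set MeasureTheory Complex Metric Filter

noncomputable section

namespace Pool.Agent.Lib.EX63

open Pool.Agent.Lib.SV (E)
open Pool.Agent.Lib.HS32 Pool.Agent.Lib.HS32.Mf

variable {n : ℕ}

theorem holN_line (z v : E n) (j : Fin n) (w : E n) : HolN (fun w : E n => z + w j • v) w :=
  Eventually.of_forall fun _ => by fun_prop

theorem jm_line (z v : E n) (j : Fin n) (w : E n) :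
    jm (fun w : E n => z + w j • v) w *ᵥ Pi.single j 1 = v := by
  rw [← (mCHN n _ _ (holN_line z v j w)).2.2.2.2.2.1]
  have : HasFDerivAt (fun w : E n => z + w j • v)
      ((ContinuousLinearMap.proj (R := ℂ) (φ := fun _ : Fin n => ℂ) j).smulRight v) w :=
    ((hasFDerivAt_apply (𝕜 := ℂ) j w).smul_const v).const_add z
  rw [this.fderiv]
  simp

/-- A local maximum along a hyperplane. -/
theorem max_plane {g : E n → ℝ} {z v : E n} {j : Fin n} (hg : ContDiffAt ℝ ∞ g z) (hv : v j = 0)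
    (hm : ∀ᶠ w in 𝓝 z, w j = z j → g w ≤ g z) : nq (hess (fun w => (g w : ℂ)) z) v ≤ 0 := by
  set ψ : E n → E n := fun w => z + w j • v with hψ
  have p : ψ 0 = z := by simp [hψ]
  obtain ⟨c1, -, -, -, -, -, -, -, -, -, -, c12⟩ := mCHN n _ _ (holN_line z v j 0)
  have s : ContDiffAt ℝ ∞ g (ψ 0) := p ▸ hg
  have lm : IsLocalMax (g ∘ ψ) 0 := by
    have t : Tendsto ψ (𝓝 0) (𝓝 z) := p ▸ c1.continuousAt
    filter_upwards [t.eventually hm] with w hw
    simp only [Function.comp_apply, p]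
    exact hw (by simp [hψ, hv])
  have h := (mMAXE n _ _ (s.comp _ c1) lm).1
  have e := c12 _ (cd_ofReal s)
  have e' : hess (fun w => (((g ∘ ψ) w : ℝ) : ℂ)) 0 =
      (jm ψ 0)ᴴ * hess (fun w => (g w : ℂ)) z * jm ψ 0 := by
    rw [← p]; exact e
  have k := (Complex.nonneg_iff.1 (h.dotProduct_mulVec_nonneg (Pi.single j 1))).1
  have k2 := BBD.nq_conj (hess (fun w => (g w : ℂ)) z) (jm ψ 0) (Pi.single j 1)
  rw [jm_line, ← e'] at k2
  rw [← k2]
  simp only [Matrix.neg_mulVec, dotProduct_neg, neg_re] at k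
  simp only [nq]
  linarith

end Pool.Agent.Lib.EX63
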